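import Pool.Agent.Helper63.ST.Defs

/-!
MP_82cbb9_al, module ST-12: commutator calculus for the lower central series and a normal
subgroup.
-/

set_option autoImplicit false

open scoped commutatorElement

namespace Pool.Agent.ST

theorem conjAb_cls {G : Type} [Group G] (A : Subgroup G) [A.Normal] (g : G) (a : A) :
    conjAb A g (cls a) = cls (MulAut.conjNormal g a) := rfl

theorem cls_mul {G : Type} [Group G] {A : Subgroup G} (a b : A) :
    cls (a * b) = cls a + cls b := rfl

theorem cls_inv {G : Type} [Group G] {A : Subgroup G} (a : A) :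
    cls a⁻¹ = - cls a := rfl

theorem mem_pull {G : Type} [Group G] {A : Subgroup G}
    {D : AddSubgroup (Additive (Abelianization A))} {g : G} :
    g ∈ pull A D ↔ ∃ h : g ∈ A, cls (⟨g, h⟩ : A) ∈ D := Iff.rfl

/-- ST-12 -/
theorem lcs_le_pull {G : Type} [Group G] (A : Subgroup G) [A.Normal] (M : Subgroup G)
    (D₁ D₂ : AddSubgroup (Additive (Abelianization A))) (n : ℕ)
    (h : ∀ l : List G, l.length = n → (∀ h ∈ l, h ∈ M) →
      ∀ b ∈ D₁, opProd (conjAb A) l b ∈ D₂) {c : ℕ} (hc : M.lowerCentralSeries c ≤ pull A D₁) :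
    M.lowerCentralSeries (c + n) ≤ pull A D₂ := by
  set E : ℕ → AddSubgroup (Additive (Abelianization A)) := fun j =>
    AddSubgroup.closure {b' | ∃ l : List G, l.length = j ∧ (∀ h ∈ l, h ∈ M) ∧
      ∃ b ∈ D₁, b' = opProd (conjAb A) l b} with hE
  have hstep : ∀ j, ∀ g ∈ M, ∀ b ∈ E j, conjAb A g b - b ∈ E (j + 1) := by
    intro j g hg b hb
    refine AddSubgroup.closure_induction ?_ ?_ ?_ ?_ hb
    · rintro _ ⟨l, hl, hlM, b, hb, rfl⟩
      apply AddSubgroup.subset_closure
      refine ⟨g :: l, by simp [hl], ?_, b, hb, ?_⟩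
      · intro g' hg'
        rw [List.mem_cons] at hg'
        rcases hg' with rfl | hg'
        · exact hg
        · exact hlM g' hg'
      · simp only [opProd, List.map_cons, List.prod_cons]
        rfl
    · simp
    · intro x y _ _ hx hy
      have := (E (j + 1)).add_mem hx hy
      have e : (conjAb A) g (x + y) - (x + y)
          = (conjAb A) g x - x + ((conjAb A) g y - y) := by rw [map_add]; abel
      rwa [e]
    · intro x _ hx
      have := (E (j + 1)).neg_mem hx
      have e : (conjAb A) g (-x) - (-x) = -((conjAb A) g x - x) := by rw [map_neg]; abel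
      rwa [e]
  have hmain : ∀ j, M.lowerCentralSeries (c + j) ≤ pull A (E j) := by
    intro j
    induction j with
    | zero =>
      intro g hg
      obtain ⟨hgA, hgD⟩ := hc hg
      refine ⟨hgA, AddSubgroup.subset_closure ⟨[], rfl, by simp, _, hgD, ?_⟩⟩
      simp [opProd]
    | succ j ih =>
      rw [← add_assoc, Subgroup.lowerCentralSeries_succ, Subgroup.commutator_le]
      intro x hx g hg
      obtain ⟨hxA, hxD⟩ := ih hx
      have hmem : ⁅x, g⁆ ∈ A := by
        have h1 : g * x⁻¹ * g⁻¹ ∈ A := Subgroup.Normal.conj_mem inferInstance _ (A.inv_mem hxA) g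
        have := A.mul_mem hxA h1
        simpa [commutatorElement_def, mul_assoc] using this
      refine ⟨hmem, ?_⟩
      have e : (⟨⁅x, g⁆, hmem⟩ : A) = ⟨x, hxA⟩ * (MulAut.conjNormal g ⟨x, hxA⟩)⁻¹ := by
        apply Subtype.ext
        simp [commutatorElement_def, mul_assoc, MulAut.conjNormal_apply]
      rw [e, cls_mul, cls_inv, ← conjAb_cls]
      have := (E (j + 1)).neg_mem (hstep j g hg _ hxD)
      rwa [neg_sub, sub_eq_add_neg] at this
  intro g hg
  obtain ⟨hgA, hgD⟩ := hmain n hg
  refine ⟨hgA, ?_⟩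
  have hle : E n ≤ D₂ := by
    rw [hE]
    refine (AddSubgroup.closure_le _).2 ?_
    rintro _ ⟨l, hl, hlM, b, hb, rfl⟩
    exact h l hl hlM b hb
  exact hle hgD

end Pool.Agent.ST
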