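import Pool.Agent.Helper35.ST.ST12

/-!
MP_82cbb9_al, module ST-13: the abelianization of the derived subgroup of a finitely generated
group is a finitely generated module.
-/

set_option autoImplicit false

open scoped commutatorElement

namespace Pool.Agent.ST

/-- ST-13 -/
theorem exists_genBy_commutator {H : Type} [Group H] [Group.FG H] :
    ∃ s : Finset (Additive (Abelianization (commutator H))),
      GenBy (conjAb (commutator H)) s := by
  classical
  obtain ⟨S, hS⟩ := (Group.FG.out : (⊤ : Subgroup H).FG)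
  have hc : ∀ a b : H, ⁅a, b⁆ ∈ commutator H := fun a b =>
    Subgroup.commutator_mem_commutator (Subgroup.mem_top a) (Subgroup.mem_top b)
  refine ⟨(S ×ˢ S).image fun q => cls (⟨⁅q.1, q.2⁆, hc q.1 q.2⟩ : commutator H), ?_⟩
  intro C hs hinv
  have hnorm : (pull (commutator H) C).Normal := by
    refine ⟨fun n hn g => ?_⟩
    obtain ⟨hnA, hnC⟩ := hn
    have h1 := hinv g _ hnC
    rw [conjAb_cls] at h1
    have hmem : g * n * g⁻¹ ∈ commutator H := Subgroup.Normal.conj_mem inferInstance _ hnA g
    refine ⟨hmem, ?_⟩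
    have e : (⟨g * n * g⁻¹, hmem⟩ : commutator H) = MulAut.conjNormal g ⟨n, hnA⟩ := by
      apply Subtype.ext
      simp [MulAut.conjNormal_apply]
    rw [e]
    exact h1
  set N := pull (commutator H) C with hN
  have hSN : ∀ a ∈ S, ∀ b ∈ S, ⁅a, b⁆ ∈ N := by
    intro a ha b hb
    refine ⟨hc a b, hs _ ?_⟩
    rw [Finset.mem_image]
    exact ⟨(a, b), Finset.mem_product.2 ⟨ha, hb⟩, rfl⟩
  have comm_iff : ∀ a b : H, ⁅a, b⁆ ∈ N ↔
      (QuotientGroup.mk' N) a * (QuotientGroup.mk' N) b
        = (QuotientGroup.mk' N) b * (QuotientGroup.mk' N) a := by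
    intro a b
    rw [← commutatorElement_eq_one_iff_mul_comm, ← map_commutatorElement]
    exact (QuotientGroup.eq_one_iff _).symm
  have h1 : ∀ a ∈ S, ∀ x : H, ⁅a, x⁆ ∈ N := by
    intro a ha x
    have hle : Subgroup.closure (S : Set H) ≤
        (Subgroup.centralizer {(QuotientGroup.mk' N) a}).comap (QuotientGroup.mk' N) := by
      rw [Subgroup.closure_le]
      intro b hb
      rw [SetLike.mem_coe, Subgroup.mem_comap, Subgroup.mem_centralizer_iff]
      intro c hc
      rw [Set.mem_singleton_iff] at hc
      subst hc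
      exact (comm_iff a b).1 (hSN a ha b hb)
    have hx : x ∈ Subgroup.closure (S : Set H) := by rw [hS]; exact Subgroup.mem_top x
    have := hle hx
    rw [Subgroup.mem_comap, Subgroup.mem_centralizer_iff] at this
    exact (comm_iff a x).2 (this _ rfl)
  have h2 : ∀ x y : H, ⁅x, y⁆ ∈ N := by
    intro x y
    have hle : Subgroup.closure (S : Set H) ≤
        (Subgroup.centralizer {(QuotientGroup.mk' N) x}).comap (QuotientGroup.mk' N) := by
      rw [Subgroup.closure_le]
      intro b hb
      rw [SetLike.mem_coe, Subgroup.mem_comap, Subgroup.mem_centralizer_iff]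
      intro c hc
      rw [Set.mem_singleton_iff] at hc
      subst hc
      exact ((comm_iff b x).1 (h1 b hb x)).symm
    have hy : y ∈ Subgroup.closure (S : Set H) := by rw [hS]; exact Subgroup.mem_top y
    have := hle hy
    rw [Subgroup.mem_comap, Subgroup.mem_centralizer_iff] at this
    exact (comm_iff x y).2 (this _ rfl)
  have h3 : commutator H ≤ N := by
    rw [commutator_def, Subgroup.commutator_le]
    exact fun x _ y _ => h2 x y
  rw [eq_top_iff]
  intro b _
  obtain ⟨b, rfl⟩ := Additive.ofMul.surjective b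
  obtain ⟨a, rfl⟩ := QuotientGroup.mk_surjective b
  obtain ⟨_, h5⟩ := h3 a.2
  exact h5

end Pool.Agent.ST
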